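import Mathlib

/-!
# Chains of subgroups and endomorphisms
-/

set_option autoImplicit false
set_option linter.style.haveILetI false

open Filter Topology

namespace Pool.Agent.Q151.AT

variable {G G' : Type*} [Group G] [Group G']

section quot
variable {A B : Subgroup G} {C D : Subgroup G'} (f : G →* G')

/-- the induced map between coset spaces -/
def qm (hAC : ∀ x ∈ A, f x ∈ C) (hBD : ∀ x ∈ B, f x ∈ D) :
    B ⧸ A.subgroupOf B → D ⧸ C.subgroupOf D :=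
  Quotient.map' (fun b => ⟨f b, hBD b b.2⟩) (by
    intro x y h
    rw [QuotientGroup.leftRel_apply] at h ⊢
    rw [Subgroup.mem_subgroupOf] at h ⊢
    have := hAC _ h
    simpa using this)

lemma qm_surj (hAC : ∀ x ∈ A, f x ∈ C) (hBD : ∀ x ∈ B, f x ∈ D)
    (h : ∀ d ∈ D, ∃ b ∈ B, ∃ c ∈ C, d = f b * c) : Function.Surjective (qm f hAC hBD) := by
  intro y
  induction y using Quotient.inductionOn' with
  | h d =>
    obtain ⟨b, hb, c, hc, he⟩ := h d.1 d.2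
    refine ⟨Quotient.mk'' ⟨b, hb⟩, ?_⟩
    show Quotient.mk'' _ = _
    rw [Quotient.eq'', QuotientGroup.leftRel_apply, Subgroup.mem_subgroupOf]
    have : (f b)⁻¹ * d.1 = c := by rw [he]; group
    show (f b)⁻¹ * d.1 ∈ C
    rw [this]
    exact hc

lemma qm_inj (hAC : ∀ x ∈ A, f x ∈ C) (hBD : ∀ x ∈ B, f x ∈ D)
    (h : ∀ b ∈ B, f b ∈ C → b ∈ A) : Function.Injective (qm f hAC hBD) := by
  intro x y hxy
  induction x using Quotient.inductionOn' with
  | h x =>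
    induction y using Quotient.inductionOn' with
    | h y =>
      have hxy' : (Quotient.mk'' (⟨f x, hBD x x.2⟩ : D) : D ⧸ C.subgroupOf D)
        = Quotient.mk'' ⟨f y, hBD y y.2⟩ := hxy
      rw [Quotient.eq'', QuotientGroup.leftRel_apply, Subgroup.mem_subgroupOf] at hxy' ⊢
      have h1 : f (x.1⁻¹ * y.1) ∈ C := by
        rw [map_mul, map_inv]; exact hxy'
      exact h _ (B.mul_mem (B.inv_mem x.2) y.2) h1

lemma relIndex_le_of_surj (hAC : ∀ x ∈ A, f x ∈ C) (hBD : ∀ x ∈ B, f x ∈ D)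
    (h : ∀ d ∈ D, ∃ b ∈ B, ∃ c ∈ C, d = f b * c) (h0 : A.relIndex B ≠ 0) :
    C.relIndex D ≤ A.relIndex B := by
  haveI : Finite (B ⧸ A.subgroupOf B) := Nat.finite_of_card_ne_zero h0
  exact Nat.card_le_card_of_surjective _ (qm_surj f hAC hBD h)

lemma relIndex_ne_zero_of_surj (hAC : ∀ x ∈ A, f x ∈ C) (hBD : ∀ x ∈ B, f x ∈ D)
    (h : ∀ d ∈ D, ∃ b ∈ B, ∃ c ∈ C, d = f b * c) (h0 : A.relIndex B ≠ 0) :
    C.relIndex D ≠ 0 := by
  haveI : Finite (B ⧸ A.subgroupOf B) := Nat.finite_of_card_ne_zero h0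
  haveI : Finite (D ⧸ C.subgroupOf D) := Finite.of_surjective _ (qm_surj f hAC hBD h)
  exact Nat.card_ne_zero.mpr ⟨⟨Quotient.mk'' 1⟩, inferInstance⟩

lemma relIndex_eq_of_bij (hAC : ∀ x ∈ A, f x ∈ C) (hBD : ∀ x ∈ B, f x ∈ D)
    (h : ∀ d ∈ D, ∃ b ∈ B, ∃ c ∈ C, d = f b * c) (h' : ∀ b ∈ B, f b ∈ C → b ∈ A) :
    C.relIndex D = A.relIndex B :=
  (Nat.card_congr (Equiv.ofBijective _ ⟨qm_inj f hAC hBD h', qm_surj f hAC hBD h⟩)).symm

/-- surjective maps between finite coset spaces of the same cardinality are injective -/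
lemma inj_of_eq (hAC : ∀ x ∈ A, f x ∈ C) (hBD : ∀ x ∈ B, f x ∈ D)
    (h : ∀ d ∈ D, ∃ b ∈ B, ∃ c ∈ C, d = f b * c) (h0 : A.relIndex B ≠ 0)
    (he : A.relIndex B ≤ C.relIndex D) {b : G} (hb : b ∈ B) (hfb : f b ∈ C) : b ∈ A := by
  haveI : Finite (B ⧸ A.subgroupOf B) := Nat.finite_of_card_ne_zero h0
  have hbij := (qm_surj f hAC hBD h).bijective_of_nat_card_le he
  have h1 : qm f hAC hBD (Quotient.mk'' ⟨b, hb⟩) = qm f hAC hBD (Quotient.mk'' 1) := by
    show (Quotient.mk'' (⟨f b, _⟩ : D) : D ⧸ C.subgroupOf D) = Quotient.mk'' ⟨f (1 : B).1, _⟩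
    rw [Quotient.eq'', QuotientGroup.leftRel_apply, Subgroup.mem_subgroupOf]
    show (f b)⁻¹ * f (1 : G) ∈ C
    rw [map_one, mul_one]
    exact C.inv_mem hfb
  have h2 := hbij.1 h1
  rw [Quotient.eq'', QuotientGroup.leftRel_apply, Subgroup.mem_subgroupOf] at h2
  have h3 : b⁻¹ * (1 : G) ∈ A := h2
  rw [mul_one] at h3
  exact inv_mem_iff.mp h3

end quot

/-- products of permuting subgroups -/
lemma mem_sup_of_perm {A B : Subgroup G}
    (h : ∀ b ∈ B, ∀ a ∈ A, ∃ a' ∈ A, ∃ b' ∈ B, b * a = a' * b') {x : G} :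
    x ∈ A ⊔ B ↔ ∃ a ∈ A, ∃ b ∈ B, x = a * b := by
  constructor
  · let S : Subgroup G := {
      carrier := {x | ∃ a ∈ A, ∃ b ∈ B, x = a * b}
      one_mem' := ⟨1, A.one_mem, 1, B.one_mem, by simp⟩
      mul_mem' := by
        rintro _ _ ⟨a, ha, b, hb, rfl⟩ ⟨c, hc, d, hd, rfl⟩
        obtain ⟨a', ha', b', hb', he⟩ := h b hb c hc
        refine ⟨a * a', A.mul_mem ha ha', b' * d, B.mul_mem hb' hd, ?_⟩
        calc a * b * (c * d) = a * (b * c) * d := by group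
          _ = a * (a' * b') * d := by rw [he]
          _ = _ := by group
      inv_mem' := by
        rintro _ ⟨a, ha, b, hb, rfl⟩
        obtain ⟨a', ha', b', hb', he⟩ := h b⁻¹ (B.inv_mem hb) a⁻¹ (A.inv_mem ha)
        refine ⟨a', ha', b', hb', ?_⟩
        rw [mul_inv_rev, he] }
    have hle : A ⊔ B ≤ S := by
      refine sup_le (fun a ha => ⟨a, ha, 1, B.one_mem, by simp⟩)
        (fun b hb => ⟨1, A.one_mem, b, hb, by simp⟩)
    exact fun hx => hle hx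
  · rintro ⟨a, ha, b, hb, rfl⟩
    exact (A ⊔ B).mul_mem (le_sup_left (a := A) ha) (le_sup_right (a := A) hb)

/-- multiplicativity of the index along a homomorphism -/
lemma relIndex_hom {A B : Subgroup G} (hAB : A ≤ B) (f : G →* G') :
    A.relIndex B = (A.map f).relIndex (B.map f) * (A ⊓ f.ker).relIndex (B ⊓ f.ker) := by
  have h1 : (A.map f).relIndex (B.map f) = (A ⊔ f.ker).relIndex B := by
    rw [← Subgroup.relIndex_comap, Subgroup.comap_map_eq]
  have h2 : A.relIndex ((A ⊔ f.ker) ⊓ B) * ((A ⊔ f.ker) ⊓ B).relIndex B = A.relIndex B :=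
    Subgroup.relIndex_mul_relIndex _ _ _ (le_inf le_sup_left hAB) inf_le_right
  rw [Subgroup.inf_relIndex_right] at h2
  have h3 : A.relIndex ((A ⊔ f.ker) ⊓ B) = (A ⊓ f.ker).relIndex (B ⊓ f.ker) := by
    apply relIndex_eq_of_bij (MonoidHom.id G)
    · intro x hx; exact hx.1
    · intro x hx; exact ⟨le_sup_right (a := A) hx.2, hx.1⟩
    · rintro d ⟨hd1, hd2⟩
      have hd3 : d ∈ f.ker ⊔ A := by rw [sup_comm]; exact hd1
      rw [Subgroup.mem_sup_of_normal_left] at hd3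
      obtain ⟨k, hk, a, ha, rfl⟩ := hd3
      refine ⟨k, ⟨?_, hk⟩, a, ha, rfl⟩
      have := B.mul_mem hd2 (B.inv_mem (hAB ha))
      simpa using this
    · rintro b ⟨-, hb⟩ hbA
      exact ⟨hbA, hb⟩
  rw [h1, ← h2, h3, mul_comm]

/-- chains of subgroups -/
structure Chain (φ : G →* G) (T : ℕ → Subgroup G) : Prop where
  le : ∀ n, T n ≤ T (n + 1)
  map_mem : ∀ n, ∀ x ∈ T n, φ x ∈ T (n + 1)
  gen : ∀ n, ∀ x ∈ T (n + 1), ∃ y ∈ T n, ∃ z ∈ T n, x = φ y * z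
  fin : ∀ n, (T n).relIndex (T (n + 1)) ≠ 0

namespace Chain
variable {φ : G →* G} {T : ℕ → Subgroup G} (h : Chain φ T)
include h

lemma mono : Monotone T := monotone_nat_of_le_succ h.le

lemma anti (n : ℕ) : (T (n + 1)).relIndex (T (n + 2)) ≤ (T n).relIndex (T (n + 1)) :=
  relIndex_le_of_surj φ (h.map_mem n) (h.map_mem (n + 1))
    (fun d hd => by
      obtain ⟨y, hy, z, hz, e⟩ := h.gen (n + 1) d hd
      exact ⟨y, hy, z, hz, e⟩) (h.fin n)

/-- the indices are eventually constant -/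
lemma stable : ∃ a m : ℕ, 0 < a ∧ ∀ n, m ≤ n → (T n).relIndex (T (n + 1)) = a := by
  have hanti : Antitone (fun n => (T n).relIndex (T (n + 1))) := antitone_nat_of_succ_le h.anti
  have hne : (Set.range fun n => (T n).relIndex (T (n + 1))).Nonempty := ⟨_, 0, rfl⟩
  obtain ⟨m, hm⟩ := Nat.sInf_mem hne
  refine ⟨(T m).relIndex (T (m + 1)), m, Nat.pos_of_ne_zero (h.fin m), fun n hn => ?_⟩
  apply le_antisymm (hanti hn)
  have : sInf (Set.range fun n => (T n).relIndex (T (n + 1))) ≤ (T n).relIndex (T (n + 1)) :=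
    Nat.sInf_le ⟨n, rfl⟩
  rw [← hm] at this
  exact this

lemma inj {a m : ℕ} (hs : ∀ n, m ≤ n → (T n).relIndex (T (n + 1)) = a) {n : ℕ} (hn : m ≤ n)
    {x : G} (hx : x ∈ T (n + 1)) (hfx : φ x ∈ T (n + 1)) : x ∈ T n :=
  inj_of_eq φ (h.map_mem n) (h.map_mem (n + 1))
    (fun d hd => by
      obtain ⟨y, hy, z, hz, e⟩ := h.gen (n + 1) d hd
      exact ⟨y, hy, z, hz, e⟩) (h.fin n) (by rw [hs n hn, hs (n + 1) (by omega)]) hx hfx

/-- the image of a chain -/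
lemma map {ψ : G' →* G'} (π : G →* G') (hπ : ∀ x, π (φ x) = ψ (π x)) :
    Chain ψ (fun n => (T n).map π) where
  le n := Subgroup.map_mono (h.le n)
  map_mem := by
    rintro n _ ⟨x, hx, rfl⟩
    exact ⟨φ x, h.map_mem n x hx, hπ x⟩
  gen := by
    rintro n _ ⟨x, hx, rfl⟩
    obtain ⟨y, hy, z, hz, rfl⟩ := h.gen n x hx
    exact ⟨π y, ⟨y, hy, rfl⟩, π z, ⟨z, hz, rfl⟩, by rw [map_mul, hπ]⟩
  fin n := by
    apply relIndex_ne_zero_of_surj π (A := T n) (B := T (n + 1))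
    · intro x hx; exact ⟨x, hx, rfl⟩
    · intro x hx; exact ⟨x, hx, rfl⟩
    · rintro _ ⟨x, hx, rfl⟩
      exact ⟨x, hx, 1, Subgroup.one_mem _, by simp⟩
    · exact h.fin n

/-- the kernel part is eventually generated -/
lemma ker_gen {ψ : G' →* G'} (π : G →* G') (hπ : ∀ x, π (φ x) = ψ (π x)) :
    ∃ m, ∀ n, m ≤ n → ∀ x ∈ T (n + 1) ⊓ π.ker,
      ∃ y ∈ T n ⊓ π.ker, ∃ z ∈ T n ⊓ π.ker, x = φ y * z := by
  have hc := h.map π hπ
  obtain ⟨a, m, -, hs⟩ := hc.stable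
  refine ⟨m + 1, fun n hn x hx => ?_⟩
  obtain ⟨n, rfl⟩ : ∃ k, n = k + 1 := ⟨n - 1, by omega⟩
  obtain ⟨y, hy, z, hz, rfl⟩ := h.gen (n + 1) x hx.1
  have hker : π (φ y * z) = 1 := hx.2
  -- `φ y` maps into the image
  have h1 : ψ (π y) ∈ (T (n + 1)).map π := by
    have e : ψ (π y) = π z⁻¹ := by
      rw [map_mul, hπ] at hker
      rw [map_inv]
      exact eq_inv_of_mul_eq_one_left hker
    rw [e]
    exact ⟨z⁻¹, (T (n + 1)).inv_mem hz, rfl⟩
  have h2 : π y ∈ (T n).map π := hc.inj hs (by omega) ⟨y, hy, rfl⟩ h1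
  obtain ⟨y', hy', he⟩ := h2
  have hy'1 : y' ∈ T (n + 1) := h.le n hy'
  -- the element `y * y'⁻¹`
  have h3 : y * y'⁻¹ ∈ T (n + 1) ⊓ π.ker := by
    refine ⟨(T (n + 1)).mul_mem hy ((T (n + 1)).inv_mem hy'1), ?_⟩
    show π (y * y'⁻¹) = 1
    rw [map_mul, map_inv, he, mul_inv_cancel]
  have h4 : φ y' * z ∈ T (n + 1) := (T (n + 1)).mul_mem (h.map_mem n y' hy') hz
  have h5 : φ y * z = φ (y * y'⁻¹) * (φ y' * z) := by
    rw [map_mul, map_inv]; group
  refine ⟨y * y'⁻¹, h3, φ y' * z, ⟨h4, ?_⟩, h5⟩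
  show π (φ y' * z) = 1
  have h6 : π (φ (y * y'⁻¹)) = 1 := by
    have h7 : π (y * y'⁻¹) = 1 := h3.2
    rw [hπ, h7, map_one]
  rw [h5, map_mul, h6, one_mul] at hker
  exact hker

/-- growth of a multiplicative size along a chain -/
lemma tendsto_log {s : ℕ → ℝ} (hs : ∀ n, 0 < s n)
    (hm : ∀ n, s (n + 1) = (T n).relIndex (T (n + 1)) * s n) :
    ∃ ℓ : ℝ, Tendsto (fun n => Real.log (s n) / (n + 1 : ℝ)) atTop (𝓝 ℓ) := by
  obtain ⟨a, m, ha, hst⟩ := h.stable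
  have ha' : (0 : ℝ) < a := by exact_mod_cast ha
  have h1 : ∀ k, Real.log (s (m + k)) = k * Real.log a + Real.log (s m) := by
    intro k
    induction k with
    | zero => simp
    | succ k ih =>
      rw [← Nat.add_assoc, hm, hst _ (by omega), Real.log_mul ha'.ne' (hs _).ne', ih]
      push_cast
      ring
  refine ⟨Real.log a, ?_⟩
  rw [← tendsto_add_atTop_iff_nat m]
  have h2 : (fun n : ℕ => Real.log (s (n + m)) / (((n + m : ℕ) : ℝ) + 1))
      = fun n : ℕ => Real.log a + (Real.log (s m) - (m + 1) * Real.log a) / (((n + m : ℕ) : ℝ) + 1) := by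
    ext n
    have h3 : ((n + m : ℕ) : ℝ) + 1 ≠ 0 := by positivity
    rw [Nat.add_comm n m, h1]
    rw [Nat.add_comm n m] at h3
    field_simp
    push_cast
    ring
  rw [h2]
  have h4 : Tendsto (fun n : ℕ => (Real.log (s m) - (m + 1) * Real.log a) / (((n + m : ℕ) : ℝ) + 1))
      atTop (𝓝 0) := by
    apply Tendsto.const_div_atTop
    apply tendsto_atTop_add_const_right
    exact tendsto_natCast_atTop_atTop.comp (tendsto_add_atTop_nat m)
  simpa using h4.const_add (Real.log a)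

end Chain

end Pool.Agent.Q151.AT
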