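import Pool.Agent.Q151.AT.Core

/-!
# Algebraic entropy on torsion quasihamiltonian groups
-/

set_option autoImplicit false
set_option linter.style.haveILetI false
set_option linter.unusedSectionVars false

open Filter Topology
open scoped Pointwise ENNReal

namespace Pool.Agent.Q151.AT

/-- `T_n(φ, F) = F φ(F) ⋯ φ^(n-1)(F)` -/
def Tn {G : Type*} [Group G] (φ : G →* G) (F : Set G) : ℕ → Set G
  | 0 => {1}
  | n + 1 => Tn φ F n * (⇑φ)^[n] '' F

/-- `H_alg(φ, F)` -/
noncomputable def Halg {G : Type*} [Group G] (φ : G →* G) (F : Set G) : ℝ≥0∞ :=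
  limsup (fun n : ℕ => ENNReal.ofReal (Real.log (Nat.card (Tn φ F n)) / n)) atTop

/-- the algebraic entropy `h_alg(φ)` -/
noncomputable def halg {G : Type*} [Group G] (φ : G →* G) : ℝ≥0∞ :=
  ⨆ F : {F : Set G // F.Finite ∧ 1 ∈ F}, Halg φ F.1

/-- torsion groups: every element has finite order -/
def Torsion (G : Type*) [Group G] : Prop := ∀ g : G, IsOfFinOrder g

/-- quasihamiltonian groups -/
def QuasiHam (G : Type*) [Group G] : Prop :=
  ∀ X Y : Subgroup G, (X : Set G) * (Y : Set G) = (Y : Set G) * (X : Set G)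

/-- the restriction of an endomorphism to an invariant subgroup -/
def resH {G : Type*} [Group G] (φ : G →* G) (H : Subgroup G) (hH : ∀ x ∈ H, φ x ∈ H) : H →* H where
  toFun x := ⟨φ x, hH x x.2⟩
  map_one' := Subtype.ext (map_one φ)
  map_mul' x y := Subtype.ext (map_mul φ x.1 y.1)

section
variable {G : Type*} [Group G] {φ : G →* G}

lemma Tn_succ' (F : Set G) (n : ℕ) : Tn φ F (n + 1) = F * φ '' (Tn φ F n) := by
  induction n with
  | zero => simp [Tn]
  | succ n ih =>
    have h1 : (⇑φ)^[n + 1] '' F = φ '' ((⇑φ)^[n] '' F) := by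
      rw [Function.iterate_succ', Set.image_comp]
    calc Tn φ F (n + 2) = Tn φ F (n + 1) * (⇑φ)^[n + 1] '' F := rfl
      _ = (F * φ '' (Tn φ F n)) * φ '' ((⇑φ)^[n] '' F) := by rw [ih, h1]
      _ = F * φ '' (Tn φ F n * (⇑φ)^[n] '' F) := by rw [mul_assoc, ← Set.image_mul]
      _ = _ := rfl

lemma Tn_mono {F F' : Set G} (h : F ⊆ F') (n : ℕ) : Tn φ F n ⊆ Tn φ F' n := by
  induction n with
  | zero => exact subset_rfl
  | succ n ih => exact Set.mul_subset_mul ih (Set.image_mono h)

lemma Tn_finite {F : Set G} (h : F.Finite) (n : ℕ) : (Tn φ F n).Finite := by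
  induction n with
  | zero => exact Set.finite_singleton _
  | succ n ih => exact ih.mul (h.image _)

lemma one_mem_Tn {F : Set G} (h : (1 : G) ∈ F) (n : ℕ) : (1 : G) ∈ Tn φ F n := by
  induction n with
  | zero => rfl
  | succ n ih =>
    refine ⟨1, ih, 1, ⟨1, h, ?_⟩, mul_one _⟩
    exact Function.iterate_fixed (map_one φ) n

lemma Halg_mono {F F' : Set G} (h : F ⊆ F') (h1 : (1 : G) ∈ F) (hf : F'.Finite) :
    Halg φ F ≤ Halg φ F' := by
  apply limsup_le_limsup
  · refine Eventually.of_forall fun n => ?_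
    apply ENNReal.ofReal_le_ofReal
    apply div_le_div_of_nonneg_right _ (Nat.cast_nonneg n)
    have hfin := Tn_finite (φ := φ) hf n
    have hfin' := Tn_finite (φ := φ) (hf.subset h) n
    haveI := hfin.to_subtype
    haveI := hfin'.to_subtype
    have hpos : 0 < Nat.card (Tn φ F n) := by
      rw [Nat.card_pos_iff]
      exact ⟨⟨1, one_mem_Tn h1 n⟩, inferInstance⟩
    apply Real.log_le_log (by exact_mod_cast hpos)
    exact_mod_cast Nat.card_mono hfin (Tn_mono h n)
  · isBoundedDefault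
  · isBoundedDefault

/-- permutability in quasihamiltonian groups -/
lemma QuasiHam.perm (hG : QuasiHam G) (A B : Subgroup G) :
    ∀ b ∈ B, ∀ a ∈ A, ∃ a' ∈ A, ∃ b' ∈ B, b * a = a' * b' := by
  intro b hb a ha
  have h1 : b * a ∈ (B : Set G) * (A : Set G) := Set.mul_mem_mul hb ha
  rw [hG B A] at h1
  obtain ⟨a', ha', b', hb', he⟩ := h1
  exact ⟨a', ha', b', hb', he.symm⟩

lemma QuasiHam.coe_sup (hG : QuasiHam G) (A B : Subgroup G) :
    ((A ⊔ B : Subgroup G) : Set G) = (A : Set G) * (B : Set G) := by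
  ext x
  rw [SetLike.mem_coe, mem_sup_of_perm (hG.perm A B)]
  constructor
  · rintro ⟨a, ha, b, hb, rfl⟩; exact ⟨a, ha, b, hb, rfl⟩
  · rintro ⟨a, ha, b, hb, rfl⟩; exact ⟨a, ha, b, hb, rfl⟩

/-- the subgroups `T_(n+1)(φ, F)` -/
def SS (φ : G →* G) (F : Subgroup G) : ℕ → Subgroup G
  | 0 => F
  | n + 1 => F ⊔ (SS φ F n).map φ

lemma coe_SS (hG : QuasiHam G) (F : Subgroup G) (n : ℕ) : (SS φ F n : Set G) = Tn φ F (n + 1) := by
  induction n with
  | zero => simp [SS, Tn]
  | succ n ih =>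
    rw [Tn_succ', ← ih]
    show ((F ⊔ (SS φ F n).map φ : Subgroup G) : Set G) = _
    rw [hG.coe_sup, Subgroup.coe_map]

lemma SS_le (F : Subgroup G) (n : ℕ) : F ≤ SS φ F n := by
  cases n with
  | zero => exact le_rfl
  | succ n => exact le_sup_left

lemma SS_step (F : Subgroup G) (n : ℕ) : SS φ F n ≤ SS φ F (n + 1) := by
  induction n with
  | zero => exact le_sup_left
  | succ n ih => exact sup_le_sup le_rfl (Subgroup.map_mono ih)

lemma SS_mono {F F' : Subgroup G} (h : F ≤ F') (n : ℕ) : SS φ F n ≤ SS φ F' n := by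
  induction n with
  | zero => exact h
  | succ n ih => exact sup_le_sup h (Subgroup.map_mono ih)

lemma SS_map_mem (F : Subgroup G) (n : ℕ) {x : G} (hx : x ∈ SS φ F n) : φ x ∈ SS φ F (n + 1) :=
  le_sup_right (a := F) (b := (SS φ F n).map φ) ⟨x, hx, rfl⟩

lemma SS_finite (hG : QuasiHam G) {F : Subgroup G} (hF : (F : Set G).Finite) (n : ℕ) :
    (SS φ F n : Set G).Finite := by
  rw [coe_SS hG]
  exact Tn_finite hF _

lemma SS_chain (hG : QuasiHam G) {F : Subgroup G} (hF : (F : Set G).Finite) :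
    Chain φ (SS φ F) where
  le n := SS_step F n
  map_mem n x hx := SS_map_mem F n hx
  gen n x hx := by
    have hx' : x ∈ (SS φ F n).map φ ⊔ F := by rw [sup_comm]; exact hx
    rw [mem_sup_of_perm (hG.perm _ _)] at hx'
    obtain ⟨_, ⟨y, hy, rfl⟩, z, hz, rfl⟩ := hx'
    exact ⟨y, hy, z, SS_le F n hz, rfl⟩
  fin n := by
    haveI : Finite (SS φ F (n + 1)) := (SS_finite hG hF (n + 1)).to_subtype
    exact Nat.card_ne_zero.mpr ⟨⟨Quotient.mk'' 1⟩, inferInstance⟩

/-- the growth rate of a finite subgroup -/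
lemma exists_rate (hG : QuasiHam G) (φ : G →* G) {F : Subgroup G} (hF : (F : Set G).Finite) :
    ∃ ℓ : ℝ, Tendsto (fun n : ℕ => Real.log (Nat.card (SS φ F n)) / (n + 1 : ℝ)) atTop (𝓝 ℓ) := by
  have hc := SS_chain (φ := φ) hG hF
  apply hc.tendsto_log (s := fun n => (Nat.card (SS φ F n) : ℝ))
  · intro n
    haveI : Finite (SS φ F n) := (SS_finite hG hF n).to_subtype
    exact_mod_cast Nat.card_pos
  · intro n
    have h1 := Subgroup.relIndex_mul_relIndex ⊥ (SS φ F n) (SS φ F (n + 1)) bot_le (SS_step F n)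
    rw [Subgroup.relIndex_bot_left, Subgroup.relIndex_bot_left] at h1
    rw [← h1]
    push_cast
    ring

/-- the real growth rate -/
noncomputable def rate (φ : G →* G) (F : Subgroup G) : ℝ :=
  limUnder atTop (fun n : ℕ => Real.log (Nat.card (SS φ F n)) / (n + 1 : ℝ))

lemma tendsto_rate (hG : QuasiHam G) (φ : G →* G) {F : Subgroup G} (hF : (F : Set G).Finite) :
    Tendsto (fun n : ℕ => Real.log (Nat.card (SS φ F n)) / (n + 1 : ℝ)) atTop
      (𝓝 (rate φ F)) :=
  tendsto_nhds_limUnder (exists_rate hG φ hF)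

lemma rate_nonneg (hG : QuasiHam G) (φ : G →* G) {F : Subgroup G} (hF : (F : Set G).Finite) :
    0 ≤ rate φ F := by
  refine ge_of_tendsto' (tendsto_rate hG φ hF) fun n => ?_
  apply div_nonneg (Real.log_natCast_nonneg _) (by positivity)

lemma Halg_eq (hG : QuasiHam G) (φ : G →* G) {F : Subgroup G} (hF : (F : Set G).Finite) :
    Halg φ (F : Set G) = ENNReal.ofReal (rate φ F) := by
  apply Tendsto.limsup_eq
  rw [← tendsto_add_atTop_iff_nat 1]
  have h1 : (fun n : ℕ => ENNReal.ofReal (Real.log (Nat.card (Tn φ (F : Set G) (n + 1)))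
      / ((n + 1 : ℕ) : ℝ))) = fun n : ℕ =>
      ENNReal.ofReal (Real.log (Nat.card (SS φ F n)) / (n + 1 : ℝ)) := by
    ext n
    rw [← coe_SS hG]
    push_cast
    rfl
  rw [h1]
  exact (ENNReal.continuous_ofReal.tendsto _).comp (tendsto_rate hG φ hF)

/-- finitely generated subgroups are finite -/
lemma closure_finite (hG : QuasiHam G) (ht : Torsion G) {X : Set G} (hX : X.Finite) :
    (Subgroup.closure X : Set G).Finite := by
  induction X, hX using Set.Finite.induction_on with
  | empty => simp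
  | @insert a s _ _ ih =>
    have e : Subgroup.closure (insert a s) = Subgroup.zpowers a ⊔ Subgroup.closure s := by
      rw [Set.insert_eq, Subgroup.closure_union, Subgroup.zpowers_eq_closure]
    rw [e, hG.coe_sup]
    exact (ht a).finite_zpowers.mul ih

lemma exists_subgroup (hG : QuasiHam G) (ht : Torsion G) {X : Set G} (hX : X.Finite) :
    ∃ F : Subgroup G, (F : Set G).Finite ∧ X ⊆ F :=
  ⟨Subgroup.closure X, closure_finite hG ht hX, Subgroup.subset_closure⟩

lemma card_hom {G' : Type*} [Group G'] (f : G →* G') (S : Subgroup G) :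
    Nat.card S = Nat.card (S.map f) * Nat.card (S ⊓ f.ker : Subgroup G) := by
  have h := relIndex_hom (A := ⊥) (B := S) bot_le f
  rw [Subgroup.map_bot, bot_inf_eq, Subgroup.relIndex_bot_left, Subgroup.relIndex_bot_left,
    Subgroup.relIndex_bot_left] at h
  exact h

lemma map_SS {G' : Type*} [Group G'] {ψ : G' →* G'} (π : G →* G')
    (hπ : ∀ x, π (φ x) = ψ (π x)) (F : Subgroup G) (n : ℕ) :
    (SS φ F n).map π = SS ψ (F.map π) n := by
  induction n with
  | zero => rfl
  | succ n ih =>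
    show (F ⊔ (SS φ F n).map φ).map π = F.map π ⊔ (SS ψ (F.map π) n).map ψ
    rw [Subgroup.map_sup, ← ih, Subgroup.map_map, Subgroup.map_map]
    congr 2
    ext x
    exact hπ x

end

section AT
variable {G : Type*} [Group G] {φ : G →* G} {H : Subgroup G} [H.Normal]
  (hG : QuasiHam G) (ht : Torsion G) (hH : ∀ x ∈ H, φ x ∈ H)

include hG in
lemma quasi_sub (H : Subgroup G) : QuasiHam H := by
  intro X Y
  have h := hG (X.map H.subtype) (Y.map H.subtype)
  rw [Subgroup.coe_map, Subgroup.coe_map, ← Set.image_mul, ← Set.image_mul] at h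
  exact Set.image_injective.mpr (Subgroup.subtype_injective H) h

include hG in
lemma quasi_quot : QuasiHam (G ⧸ H) := by
  intro X Y
  have hs := QuotientGroup.mk'_surjective H
  have h := hG (X.comap (QuotientGroup.mk' H)) (Y.comap (QuotientGroup.mk' H))
  have h2 := congrArg (fun S : Set G => (QuotientGroup.mk' H) '' S) h
  simp only [Set.image_mul, Subgroup.coe_comap] at h2
  rwa [Set.image_preimage_eq _ hs, Set.image_preimage_eq _ hs] at h2

/-- the induced endomorphism of the quotient -/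
def quotH (φ : G →* G) (H : Subgroup G) [H.Normal] (hH : ∀ x ∈ H, φ x ∈ H) :
    G ⧸ H →* G ⧸ H := QuotientGroup.map H H φ (fun x hx => hH x hx)

lemma quotH_mk (x : G) :
    QuotientGroup.mk' H (φ x) = quotH φ H hH (QuotientGroup.mk' H x) := rfl

lemma sub_map_le {E : Subgroup H} {F : Subgroup G} (hE : E.map H.subtype ≤ F) (n : ℕ) :
    (SS (resH φ H hH) E n).map H.subtype ≤ SS φ F n ⊓ H := by
  induction n with
  | zero => exact le_inf hE (by rintro _ ⟨x, -, rfl⟩; exact x.2)
  | succ n ih =>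
    refine le_inf ?_ (by rintro _ ⟨x, -, rfl⟩; exact x.2)
    show (E ⊔ (SS (resH φ H hH) E n).map (resH φ H hH)).map H.subtype ≤ F ⊔ (SS φ F n).map φ
    rw [Subgroup.map_sup]
    refine sup_le_sup hE ?_
    rintro _ ⟨_, ⟨x, hx, rfl⟩, rfl⟩
    have h1 := ih ⟨x, hx, rfl⟩
    exact ⟨x.1, h1.1, rfl⟩

include hG in
/-- upper bound -/
lemma rate_le {F : Subgroup G} (hF : (F : Set G).Finite) :
    ∃ E : Subgroup H, (E : Set H).Finite ∧
      rate φ F ≤ rate (quotH φ H hH) (F.map (QuotientGroup.mk' H)) + rate (resH φ H hH) E := by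
  have hc := SS_chain (φ := φ) hG hF
  obtain ⟨m, hm⟩ := hc.ker_gen (ψ := quotH φ H hH) (QuotientGroup.mk' H) (quotH_mk hH)
  rw [QuotientGroup.ker_mk'] at hm
  set E : Subgroup H := (SS φ F m).subgroupOf H with hE
  have hEf : (E : Set H).Finite := by
    apply Set.Finite.preimage (Subtype.val_injective.injOn) (SS_finite hG hF m)
  have hGH : QuasiHam H := quasi_sub hG H
  have key : ∀ k, SS φ F (m + k) ⊓ H ≤ (SS (resH φ H hH) E k).map H.subtype := by
    intro k
    induction k with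
    | zero =>
      rintro x ⟨hx, hxH⟩
      exact ⟨⟨x, hxH⟩, hx, rfl⟩
    | succ k ih =>
      intro x hx
      obtain ⟨y, hy, z, hz, rfl⟩ := hm (m + k) (by omega) x hx
      obtain ⟨y', hy', rfl⟩ := ih hy
      obtain ⟨z', hz', rfl⟩ := ih hz
      refine ⟨resH φ H hH y' * z', ?_, rfl⟩
      exact Subgroup.mul_mem _ (SS_map_mem E k hy') (SS_step E k hz')
  refine ⟨E, hEf, ?_⟩
  have hFq : ((F.map (QuotientGroup.mk' H) : Subgroup (G ⧸ H)) : Set (G ⧸ H)).Finite := by
    rw [Subgroup.coe_map]; exact hF.image _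
  have hGq : QuasiHam (G ⧸ H) := quasi_quot hG
  refine le_of_tendsto_of_tendsto (tendsto_rate hG φ hF)
    ((tendsto_rate hGq (quotH φ H hH) hFq).add (tendsto_rate hGH (resH φ H hH) hEf)) ?_
  filter_upwards [eventually_ge_atTop m] with n hn
  rw [← add_div]
  apply div_le_div_of_nonneg_right _ (by positivity)
  have e := card_hom (QuotientGroup.mk' H) (SS φ F n)
  rw [QuotientGroup.ker_mk', map_SS (QuotientGroup.mk' H) (quotH_mk hH)] at e
  haveI f1 : Finite (SS (quotH φ H hH) (F.map (QuotientGroup.mk' H)) n) :=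
    (SS_finite hGq hFq n).to_subtype
  haveI f2 : Finite (SS (resH φ H hH) E n) := (SS_finite hGH hEf n).to_subtype
  haveI f3 : Finite (SS φ F n) := (SS_finite hG hF n).to_subtype
  haveI f4 : Finite (SS φ F n ⊓ H : Subgroup G) :=
    Finite.of_injective _ (Subgroup.inclusion_injective (inf_le_left (a := SS φ F n) (b := H)))
  have h1 : Nat.card (SS φ F n ⊓ H : Subgroup G) ≤ Nat.card (SS (resH φ H hH) E n) := by
    obtain ⟨k, rfl⟩ := Nat.exists_eq_add_of_le hn
    have hmono : SS (resH φ H hH) E k ≤ SS (resH φ H hH) E (m + k) :=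
      (SS_chain (φ := resH φ H hH) hGH hEf).mono (by omega)
    have h2 : SS φ F (m + k) ⊓ H ≤ (SS (resH φ H hH) E (m + k)).map H.subtype :=
      (key k).trans (Subgroup.map_mono hmono)
    haveI f5 : Finite ((SS (resH φ H hH) E (m + k)).map H.subtype) :=
      ((SS_finite hGH hEf (m + k)).image _).to_subtype
    calc Nat.card (SS φ F (m + k) ⊓ H : Subgroup G)
        ≤ Nat.card ((SS (resH φ H hH) E (m + k)).map H.subtype) :=
          Nat.card_le_card_of_injective _ (Subgroup.inclusion_injective h2)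
      _ = Nat.card (SS (resH φ H hH) E (m + k)) :=
          Nat.card_congr ((SS (resH φ H hH) E (m + k)).equivMapOfInjective _
            (Subgroup.subtype_injective H)).toEquiv.symm
  have p1 : 0 < Nat.card (SS (quotH φ H hH) (F.map (QuotientGroup.mk' H)) n) := Nat.card_pos
  have p2 : 0 < Nat.card (SS φ F n ⊓ H : Subgroup G) := Nat.card_pos
  rw [e]
  push_cast
  rw [Real.log_mul (by exact_mod_cast p1.ne') (by exact_mod_cast p2.ne')]
  have h3 : Real.log (Nat.card (SS φ F n ⊓ H : Subgroup G))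
      ≤ Real.log (Nat.card (SS (resH φ H hH) E n)) :=
    Real.log_le_log (by exact_mod_cast p2) (by exact_mod_cast h1)
  linarith

include hG ht in
/-- lower bound -/
lemma le_rate {Fq : Subgroup (G ⧸ H)} (hFq : (Fq : Set (G ⧸ H)).Finite) {E : Subgroup H}
    (hE : (E : Set H).Finite) :
    ∃ F : Subgroup G, (F : Set G).Finite ∧
      rate (quotH φ H hH) Fq + rate (resH φ H hH) E ≤ rate φ F := by
  have hGH : QuasiHam H := quasi_sub hG H
  have hGq : QuasiHam (G ⧸ H) := quasi_quot hG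
  obtain ⟨F, hF, hFsub⟩ := exists_subgroup hG ht
    (X := (Quotient.out '' (Fq : Set (G ⧸ H))) ∪ (H.subtype '' (E : Set H)))
    ((hFq.image _).union (hE.image _))
  refine ⟨F, hF, ?_⟩
  have hE' : E.map H.subtype ≤ F := by
    rintro _ ⟨x, hx, rfl⟩
    exact hFsub (Or.inr ⟨x, hx, rfl⟩)
  have hq : Fq ≤ F.map (QuotientGroup.mk' H) := by
    intro y hy
    exact ⟨y.out, hFsub (Or.inl ⟨y, hy, rfl⟩), QuotientGroup.out_eq' y⟩
  refine le_of_tendsto_of_tendsto ((tendsto_rate hGq (quotH φ H hH) hFq).add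
    (tendsto_rate hGH (resH φ H hH) hE)) (tendsto_rate hG φ hF) (Eventually.of_forall fun n => ?_)
  simp only
  rw [← add_div]
  apply div_le_div_of_nonneg_right _ (by positivity)
  have e := card_hom (QuotientGroup.mk' H) (SS φ F n)
  rw [QuotientGroup.ker_mk', map_SS (QuotientGroup.mk' H) (quotH_mk hH)] at e
  have hFm : ((F.map (QuotientGroup.mk' H) : Subgroup (G ⧸ H)) : Set (G ⧸ H)).Finite := by
    rw [Subgroup.coe_map]; exact hF.image _
  haveI f1 : Finite (SS (quotH φ H hH) (F.map (QuotientGroup.mk' H)) n) :=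
    (SS_finite hGq hFm n).to_subtype
  haveI f1' : Finite (SS (quotH φ H hH) Fq n) := (SS_finite hGq hFq n).to_subtype
  haveI f2 : Finite (SS (resH φ H hH) E n) := (SS_finite hGH hE n).to_subtype
  haveI f3 : Finite (SS φ F n) := (SS_finite hG hF n).to_subtype
  haveI f4 : Finite (SS φ F n ⊓ H : Subgroup G) :=
    Finite.of_injective _ (Subgroup.inclusion_injective (inf_le_left (a := SS φ F n) (b := H)))
  have h1 : Nat.card (SS (resH φ H hH) E n) ≤ Nat.card (SS φ F n ⊓ H : Subgroup G) := by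
    calc Nat.card (SS (resH φ H hH) E n) = Nat.card ((SS (resH φ H hH) E n).map H.subtype) :=
          Nat.card_congr ((SS (resH φ H hH) E n).equivMapOfInjective _
            (Subgroup.subtype_injective H)).toEquiv
      _ ≤ _ := Nat.card_le_card_of_injective _
            (Subgroup.inclusion_injective (sub_map_le hH hE' n))
  have h2 : Nat.card (SS (quotH φ H hH) Fq n)
      ≤ Nat.card (SS (quotH φ H hH) (F.map (QuotientGroup.mk' H)) n) :=
    Nat.card_le_card_of_injective _ (Subgroup.inclusion_injective (SS_mono hq n))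
  have p1 : 0 < Nat.card (SS (quotH φ H hH) Fq n) := Nat.card_pos
  have p2 : 0 < Nat.card (SS (resH φ H hH) E n) := Nat.card_pos
  have p3 : 0 < Nat.card (SS (quotH φ H hH) (F.map (QuotientGroup.mk' H)) n) := Nat.card_pos
  have p4 : 0 < Nat.card (SS φ F n ⊓ H : Subgroup G) := Nat.card_pos
  rw [e]
  push_cast
  rw [Real.log_mul (by exact_mod_cast p3.ne') (by exact_mod_cast p4.ne')]
  have h3 := Real.log_le_log (by exact_mod_cast p1) (show
    (Nat.card (SS (quotH φ H hH) Fq n) : ℝ) ≤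
      Nat.card (SS (quotH φ H hH) (F.map (QuotientGroup.mk' H)) n) by exact_mod_cast h2)
  have h4 := Real.log_le_log (by exact_mod_cast p2) (show
    (Nat.card (SS (resH φ H hH) E n) : ℝ) ≤ Nat.card (SS φ F n ⊓ H : Subgroup G) by
      exact_mod_cast h1)
  linarith

include hG ht in
/-- **Addition Theorem** -/
theorem addition : halg φ = halg (quotH φ H hH) + halg (resH φ H hH) := by
  have hGH : QuasiHam H := quasi_sub hG H
  have hGq : QuasiHam (G ⧸ H) := quasi_quot hG
  have htH : Torsion H := by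
    intro x
    exact (Subgroup.subtype_injective H).isOfFinOrder_iff.mp (ht x.1)
  have htq : Torsion (G ⧸ H) := by
    intro x
    obtain ⟨g, rfl⟩ := QuotientGroup.mk'_surjective H x
    exact MonoidHom.isOfFinOrder _ (ht g)
  apply le_antisymm
  · refine iSup_le fun ⟨X, hX, hX1⟩ => ?_
    obtain ⟨F, hF, hXF⟩ := exists_subgroup hG ht hX
    obtain ⟨E, hE, hle⟩ := rate_le hG hH hF
    have hFq : ((F.map (QuotientGroup.mk' H) : Subgroup (G ⧸ H)) : Set (G ⧸ H)).Finite := by
      rw [Subgroup.coe_map]; exact hF.image _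
    calc Halg φ X ≤ Halg φ (F : Set G) := Halg_mono hXF hX1 hF
      _ = ENNReal.ofReal (rate φ F) := Halg_eq hG φ hF
      _ ≤ ENNReal.ofReal (rate (quotH φ H hH) (F.map (QuotientGroup.mk' H))
          + rate (resH φ H hH) E) := ENNReal.ofReal_le_ofReal hle
      _ = Halg (quotH φ H hH) (F.map (QuotientGroup.mk' H) : Subgroup (G ⧸ H))
          + Halg (resH φ H hH) (E : Set H) := by
        rw [ENNReal.ofReal_add (rate_nonneg hGq _ hFq) (rate_nonneg hGH _ hE), Halg_eq hGq _ hFq,
          Halg_eq hGH _ hE]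
      _ ≤ _ := add_le_add
        (le_iSup (fun F : {F : Set (G ⧸ H) // F.Finite ∧ 1 ∈ F} => Halg (quotH φ H hH) F.1)
          ⟨_, hFq, Subgroup.one_mem _⟩)
        (le_iSup (fun F : {F : Set H // F.Finite ∧ 1 ∈ F} => Halg (resH φ H hH) F.1)
          ⟨_, hE, Subgroup.one_mem _⟩)
  · haveI : Nonempty {F : Set (G ⧸ H) // F.Finite ∧ 1 ∈ F} := ⟨⟨{1}, Set.finite_singleton _, rfl⟩⟩
    haveI : Nonempty {F : Set H // F.Finite ∧ 1 ∈ F} := ⟨⟨{1}, Set.finite_singleton _, rfl⟩⟩
    refine ENNReal.iSup_add_iSup_le fun ⟨X, hX, hX1⟩ ⟨Y, hY, hY1⟩ => ?_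
    obtain ⟨Fq, hFq, hXF⟩ := exists_subgroup hGq htq hX
    obtain ⟨E, hE, hYE⟩ := exists_subgroup hGH htH hY
    obtain ⟨F, hF, hle⟩ := le_rate hG ht hH hFq hE
    calc Halg (quotH φ H hH) X + Halg (resH φ H hH) Y
        ≤ Halg (quotH φ H hH) (Fq : Set (G ⧸ H)) + Halg (resH φ H hH) (E : Set H) :=
          add_le_add (Halg_mono hXF hX1 hFq) (Halg_mono hYE hY1 hE)
      _ = ENNReal.ofReal (rate (quotH φ H hH) Fq + rate (resH φ H hH) E) := by
        rw [ENNReal.ofReal_add (rate_nonneg hGq _ hFq) (rate_nonneg hGH _ hE), Halg_eq hGq _ hFq,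
          Halg_eq hGH _ hE]
      _ ≤ ENNReal.ofReal (rate φ F) := ENNReal.ofReal_le_ofReal hle
      _ = Halg φ (F : Set G) := (Halg_eq hG φ hF).symm
      _ ≤ halg φ := le_iSup (fun F : {F : Set G // F.Finite ∧ 1 ∈ F} => Halg φ F.1)
          ⟨_, hF, F.one_mem⟩

end AT

end Pool.Agent.Q151.AT
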