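import Pool.Agent.Q151.AT.Top

/-!
# The Addition Theorem for strongly compactly covered topologically quasihamiltonian groups
-/

set_option autoImplicit false
set_option linter.style.haveILetI false
set_option linter.unusedSectionVars false

open Filter Topology MeasureTheory
open scoped Pointwise ENNReal

namespace Pool.Agent.Q151.AT

section gen
variable {G : Type*} [Group G] [TopologicalSpace G] [IsTopologicalGroup G] {φ : G →* G}

lemma Tn_compact (hφ : Continuous φ) {K : Set G} (hK : IsCompact K) (n : ℕ) :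
    IsCompact (Tn φ K n) := by
  induction n with
  | zero => exact isCompact_singleton
  | succ n ih => exact ih.mul (hK.image (hφ.iterate n))

lemma Tn_image {G' : Type*} [Group G'] {ψ : G' →* G'} (π : G →* G')
    (hπ : ∀ x, π (φ x) = ψ (π x)) (F : Set G) (n : ℕ) :
    π '' (Tn φ F n) = Tn ψ (π '' F) n := by
  induction n with
  | zero => simp [Tn]
  | succ n ih =>
    show π '' (Tn φ F n * (⇑φ)^[n] '' F) = Tn ψ (π '' F) n * (⇑ψ)^[n] '' (π '' F)
    rw [Set.image_mul, ih, ← Set.image_comp, ← Set.image_comp]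
    congr 2
    have hs : Function.Semiconj (⇑π) (⇑φ) (⇑ψ) := hπ
    exact (hs.iterate_right n).comp_eq

end gen

section AT
variable {G : Type*} [Group G] [TopologicalSpace G] [IsTopologicalGroup G] {φ : G →* G}
  {H : Subgroup G} [H.Normal] (hH : ∀ x ∈ H, φ x ∈ H)

lemma resH_cont (hφ : Continuous φ) : Continuous (resH φ H hH) :=
  Continuous.subtype_mk (hφ.comp continuous_subtype_val) _

lemma quotH_cont (hφ : Continuous φ) : Continuous (quotH φ H hH) := by
  have h1 : Topology.IsQuotientMap (QuotientGroup.mk : G → G ⧸ H) :=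
    QuotientGroup.isQuotientMap_mk H
  rw [h1.continuous_iff]
  exact QuotientGroup.continuous_mk.comp hφ

lemma map_cpt {A : Subgroup G} (hA : IsCompact (A : Set G)) :
    IsCompact ((A.map (QuotientGroup.mk' H) : Subgroup (G ⧸ H)) : Set (G ⧸ H)) := by
  rw [Subgroup.coe_map]; exact hA.image QuotientGroup.continuous_mk

lemma map_opn {A : Subgroup G} (hA : IsOpen (A : Set G)) :
    IsOpen ((A.map (QuotientGroup.mk' H) : Subgroup (G ⧸ H)) : Set (G ⧸ H)) := by
  rw [Subgroup.coe_map]; exact QuotientGroup.isOpenMap_coe _ hA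

lemma sub_opn {A : Subgroup G} (hA : IsOpen (A : Set G)) :
    IsOpen ((A.subgroupOf H : Subgroup H) : Set H) := hA.preimage continuous_subtype_val

lemma sub_cpt (hHc : IsClosed (H : Set G)) {A : Subgroup G} (hA : IsCompact (A : Set G)) :
    IsCompact ((A.subgroupOf H : Subgroup H) : Set H) :=
  hHc.isClosedEmbedding_subtypeVal.isCompact_preimage hA

/-- the Haar measures of `A`, `A H / H` and `A ∩ H` -/
lemma split_meas (hHc : IsClosed (H : Set G)) {μ : @Measure G (borel G)} (hμ : IsRightHaar μ)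
    {ν : @Measure (G ⧸ H) (borel (G ⧸ H))} (hν : IsRightHaar ν)
    {ρ : @Measure H (borel H)} (hρ : IsRightHaar ρ) {U : Subgroup G}
    (hUc : IsCompact (U : Set G)) (hUo : IsOpen (U : Set G)) :
    ∃ C : ℝ, ∀ A : Subgroup G, U ≤ A → IsCompact (A : Set G) →
      Real.log (μ (A : Set G)).toReal =
        Real.log (ν (A.map (QuotientGroup.mk' H) : Subgroup (G ⧸ H))).toReal
        + Real.log (ρ (A.subgroupOf H : Subgroup H)).toReal + C := by
  refine ⟨Real.log (μ (U : Set G)).toReal -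
    (Real.log (ν (U.map (QuotientGroup.mk' H) : Subgroup (G ⧸ H))).toReal
        + Real.log (ρ (U.subgroupOf H : Subgroup H)).toReal), fun A hUA hA => ?_⟩
  have hAo : IsOpen (A : Set G) := Subgroup.isOpen_mono hUA hUo
  have e1 := meas_eq hμ hUA hUo hA
  have e2 := meas_eq hν (Subgroup.map_mono (f := QuotientGroup.mk' H) hUA) (map_opn hUo)
    (map_cpt hA)
  have hsub : U.subgroupOf H ≤ A.subgroupOf H := fun x hx => hUA hx
  have e3 := meas_eq hρ hsub (sub_opn hUo) (sub_cpt hHc hA)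
  have e4 := relIndex_hom hUA (QuotientGroup.mk' H)
  rw [QuotientGroup.ker_mk'] at e4
  have e5 : (U.subgroupOf H).relIndex (A.subgroupOf H) = (U ⊓ H).relIndex (A ⊓ H) := by
    rw [← Subgroup.inf_subgroupOf_right U H, ← Subgroup.inf_subgroupOf_right A H]
    exact Subgroup.relIndex_subgroupOf inf_le_right
  have n1 : U.relIndex A ≠ 0 := relIndex_ne hUo hA
  rw [e4] at n1
  have n2 := left_ne_zero_of_mul n1
  have n3 := right_ne_zero_of_mul n1
  have p1 := (meas_pos hμ hUc (hUo.mem_nhds U.one_mem)).ne'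
  have p2 := (meas_pos hν (map_cpt (H := H) hUc) ((map_opn hUo).mem_nhds (Subgroup.one_mem _))).ne'
  have p3 := (meas_pos hρ (sub_cpt hHc hUc) ((sub_opn hUo).mem_nhds (Subgroup.one_mem _))).ne'
  have q2 : (((U.map (QuotientGroup.mk' H)).relIndex (A.map (QuotientGroup.mk' H)) : ℕ) : ℝ) ≠ 0 :=
    by exact_mod_cast n2
  have q3 : (((U ⊓ H).relIndex (A ⊓ H) : ℕ) : ℝ) ≠ 0 := by exact_mod_cast n3
  rw [e1, e2, e3, e4, e5]
  push_cast
  rw [Real.log_mul (mul_ne_zero q2 q3) p1, Real.log_mul q2 q3, Real.log_mul q2 p2,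
    Real.log_mul q3 p3]
  ring

variable [T2Space G]

/-- the entropy with respect to a compact open subgroup -/
lemma rates (hCP : CP G) (hφ : Continuous φ) (hHc : IsClosed (H : Set G))
    {μ : @Measure G (borel G)} (hμ : IsRightHaar μ)
    {ν : @Measure (G ⧸ H) (borel (G ⧸ H))} (hν : IsRightHaar ν)
    {ρ : @Measure H (borel H)} (hρ : IsRightHaar ρ) {U : Subgroup G}
    (hUc : IsCompact (U : Set G)) (hUo : IsOpen (U : Set G)) :
    (∃ E : Subgroup H, IsCompact (E : Set H) ∧ IsOpen (E : Set H) ∧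
      HalgT φ μ (U : Set G) ≤ HalgT (quotH φ H hH) ν (QuotientGroup.mk' H '' (U : Set G))
        + HalgT (resH φ H hH) ρ (E : Set H)) ∧
    (∀ E : Subgroup H, IsCompact (E : Set H) → IsOpen (E : Set H) → E.map H.subtype ≤ U →
      HalgT (quotH φ H hH) ν (QuotientGroup.mk' H '' (U : Set G))
        + HalgT (resH φ H hH) ρ (E : Set H) ≤ HalgT φ μ (U : Set G)) := by
  have hCH : CP H := cp_sub hCP H
  have hc := SS_chainT (φ := φ) hCP hφ hUc hUo
  have hSc := fun n => (SS_cpt hCP hφ hUc n).1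
  have hSo := fun n => SS_open (φ := φ) hUo n
  obtain ⟨ℓG, hG⟩ := chain_rate hμ hc hSo hSc
  have hcq := hc.map (ψ := quotH φ H hH) (QuotientGroup.mk' H) (quotH_mk hH)
  obtain ⟨ℓQ, hQ⟩ := chain_rate hν hcq (fun n => map_opn (hSo n)) (fun n => map_cpt (hSc n))
  have eG : HalgT φ μ (U : Set G) = ℓG :=
    HalgT_eq (fun n => (SS_cpt hCP hφ hUc n).2) hG
  have eQ : HalgT (quotH φ H hH) ν (QuotientGroup.mk' H '' (U : Set G)) = ℓQ := by
    refine HalgT_eq (fun n => ?_) hQ
    rw [Subgroup.coe_map, (SS_cpt hCP hφ hUc n).2, Tn_image _ (quotH_mk hH)]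
  obtain ⟨C, hC⟩ := split_meas hHc hμ hν hρ hUc hUo
  have hK : Tendsto (fun n : ℕ => Real.log (ρ ((SS φ U n).subgroupOf H : Subgroup H)).toReal
      / (n + 1 : ℝ)) atTop (𝓝 (ℓG - ℓQ)) := by
    have h0 : Tendsto (fun n : ℕ => C / (n + 1 : ℝ)) atTop (𝓝 0) := by
      apply Tendsto.const_div_atTop
      exact tendsto_atTop_add_const_right _ _ tendsto_natCast_atTop_atTop
    have h1 := (hG.sub hQ).sub h0
    rw [sub_zero] at h1
    refine h1.congr fun n => ?_
    have h2 := hC (SS φ U n) (SS_le U n) (hSc n)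
    rw [h2]
    ring
  have hE : ∀ E : Subgroup H, IsCompact (E : Set H) → IsOpen (E : Set H) → ∃ ℓ : ℝ,
      HalgT (resH φ H hH) ρ (E : Set H) = ℓ ∧
      Tendsto (fun n : ℕ => Real.log (ρ (SS (resH φ H hH) E n : Set H)).toReal / (n + 1 : ℝ))
        atTop (𝓝 ℓ) := by
    intro E hEc hEo
    have hcE := SS_chainT (φ := resH φ H hH) hCH (resH_cont hH hφ) hEc hEo
    obtain ⟨ℓ, hℓ⟩ := chain_rate hρ hcE (fun n => SS_open hEo n)
      (fun n => (SS_cpt hCH (resH_cont hH hφ) hEc n).1)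
    exact ⟨ℓ, HalgT_eq (fun n => (SS_cpt hCH (resH_cont hH hφ) hEc n).2) hℓ, hℓ⟩
  constructor
  · obtain ⟨m, hm⟩ := hc.ker_gen (ψ := quotH φ H hH) (QuotientGroup.mk' H) (quotH_mk hH)
    rw [QuotientGroup.ker_mk'] at hm
    set E : Subgroup H := (SS φ U m).subgroupOf H with hEdef
    have hEc : IsCompact (E : Set H) := sub_cpt hHc (hSc m)
    have hEo : IsOpen (E : Set H) := sub_opn (hSo m)
    have key : ∀ k, (SS φ U (m + k)).subgroupOf H ≤ SS (resH φ H hH) E k := by
      intro k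
      induction k with
      | zero => exact le_rfl
      | succ k ih =>
        intro x hx
        obtain ⟨y, hy, z, hz, hxyz⟩ := hm (m + k) (by omega) x.1 ⟨hx, x.2⟩
        have hy' : (⟨y, hy.2⟩ : H) ∈ SS (resH φ H hH) E k := ih hy.1
        have hz' : (⟨z, hz.2⟩ : H) ∈ SS (resH φ H hH) E k := ih hz.1
        have hx' : x = resH φ H hH ⟨y, hy.2⟩ * ⟨z, hz.2⟩ := Subtype.ext hxyz
        rw [hx']
        exact Subgroup.mul_mem _ (SS_map_mem E k hy') (SS_step E k hz')
    obtain ⟨ℓE, eE, hEt⟩ := hE E hEc hEo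
    refine ⟨E, hEc, hEo, ?_⟩
    rw [eG, eQ, eE, ← EReal.coe_add, EReal.coe_le_coe_iff]
    have h1 : ℓG - ℓQ ≤ ℓE := by
      refine le_of_tendsto_of_tendsto hK hEt ?_
      filter_upwards [eventually_ge_atTop m] with n hn
      apply div_le_div_of_nonneg_right _ (by positivity)
      obtain ⟨k, rfl⟩ := Nat.exists_eq_add_of_le hn
      have hmono : SS (resH φ H hH) E k ≤ SS (resH φ H hH) E (m + k) :=
        (SS_chainT hCH (resH_cont hH hφ) hEc hEo).mono (by omega)
      have hcpt := (SS_cpt hCH (resH_cont hH hφ) hEc (m + k)).1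
      exact Real.log_le_log
        (meas_pos hρ (sub_cpt hHc (hSc _)) ((sub_opn (hSo _)).mem_nhds (Subgroup.one_mem _)))
        (meas_mono hρ ((key k).trans hmono) hcpt)
    linarith
  · intro E hEc hEo hEU
    obtain ⟨ℓE, eE, hEt⟩ := hE E hEc hEo
    rw [eG, eQ, eE, ← EReal.coe_add, EReal.coe_le_coe_iff]
    have h1 : ℓE ≤ ℓG - ℓQ := by
      refine le_of_tendsto_of_tendsto hEt hK (Eventually.of_forall fun n => ?_)
      apply div_le_div_of_nonneg_right _ (by positivity)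
      have hcpt := (SS_cpt hCH (resH_cont hH hφ) hEc n).1
      have hopn := SS_open (φ := resH φ H hH) hEo n
      have hle : SS (resH φ H hH) E n ≤ (SS φ U n).subgroupOf H := by
        intro x hx
        exact (sub_map_le hH hEU n ⟨x, hx, rfl⟩).1
      exact Real.log_le_log
        (meas_pos hρ hcpt (hopn.mem_nhds (Subgroup.one_mem _)))
        (meas_mono hρ hle (sub_cpt hHc (hSc n)))
    linarith

/-- **Addition Theorem** -/
theorem additionT (hCP : CP G) (hS : StronglyCC G) (hφ : Continuous φ)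
    (hHc : IsClosed (H : Set G)) {μ : @Measure G (borel G)} (hμ : IsRightHaar μ)
    {ν : @Measure (G ⧸ H) (borel (G ⧸ H))} (hν : IsRightHaar ν)
    {ρ : @Measure H (borel H)} (hρ : IsRightHaar ρ) :
    halgT φ μ = halgT (quotH φ H hH) ν + halgT (resH φ H hH) ρ := by
  have hCH : CP H := cp_sub hCP H
  apply le_antisymm
  · refine iSup_le fun ⟨K, hK, hK1⟩ => ?_
    obtain ⟨U, -, hUc, hUo, hKU⟩ := exists_cpt_open hS hK
    obtain ⟨⟨E, hEc, hEo, hle⟩, -⟩ := rates hH hCP hφ hHc hμ hν hρ hUc hUo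
    calc HalgT φ μ K ≤ HalgT φ μ (U : Set G) :=
          HalgT_mono hμ hK1 hKU (fun n => Tn_compact hφ hUc _)
      _ ≤ _ := hle
      _ ≤ _ := add_le_add
        (le_iSup (fun V : {V : Set (G ⧸ H) // IsCompact V ∧ V ∈ 𝓝 (1 : G ⧸ H)} =>
          HalgT (quotH φ H hH) ν V.1) ⟨QuotientGroup.mk' H '' (U : Set G),
            hUc.image QuotientGroup.continuous_mk,
            (QuotientGroup.isOpenMap_coe _ hUo).mem_nhds ⟨1, U.one_mem, rfl⟩⟩)
        (le_iSup (fun V : {V : Set H // IsCompact V ∧ V ∈ 𝓝 (1 : H)} =>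
          HalgT (resH φ H hH) ρ V.1) ⟨E, hEc, hEo.mem_nhds E.one_mem⟩)
  · obtain ⟨U0, -, hU0c, hU0o, -⟩ := exists_cpt_open hS (isCompact_empty (X := G))
    haveI : Nonempty {V : Set (G ⧸ H) // IsCompact V ∧ V ∈ 𝓝 (1 : G ⧸ H)} :=
      ⟨⟨_, map_cpt (H := H) hU0c, (map_opn hU0o).mem_nhds (Subgroup.one_mem _)⟩⟩
    haveI : Nonempty {V : Set H // IsCompact V ∧ V ∈ 𝓝 (1 : H)} :=
      ⟨⟨_, sub_cpt hHc hU0c, (sub_opn hU0o).mem_nhds (Subgroup.one_mem _)⟩⟩
    refine ereal_sup_add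
      (fun ⟨X, hX, hX1⟩ => HalgT_nonneg hν hX hX1 (fun n => Tn_compact (quotH_cont hH hφ) hX _))
      (fun ⟨Y, hY, hY1⟩ => HalgT_nonneg hρ hY hY1 (fun n => Tn_compact (resH_cont hH hφ) hY _))
      (fun ⟨X, hX, hX1⟩ ⟨Y, hY, hY1⟩ => ?_)
    -- a compact set mapping onto a set containing `X`
    obtain ⟨L, hL, hXL⟩ : ∃ L : Set G, IsCompact L ∧ X ⊆ QuotientGroup.mk' H '' L := by
      choose N hN hNc hNo hNx using hS
      obtain ⟨t, ht⟩ := hX.elim_finite_subcover
        (fun x : G => QuotientGroup.mk' H '' (N x : Set G))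
        (fun x => QuotientGroup.isOpenMap_coe _ (hNo x))
        (fun x _ => Set.mem_iUnion.mpr ⟨x.out, x.out, hNx _, QuotientGroup.out_eq' x⟩)
      refine ⟨⋃ x ∈ t, (N x : Set G), t.isCompact_biUnion (fun x _ => hNc x), fun x hx => ?_⟩
      obtain ⟨i, hi⟩ := Set.mem_iUnion.mp (ht hx)
      obtain ⟨hit, y, hy, rfl⟩ := Set.mem_iUnion.mp hi
      exact ⟨y, Set.mem_biUnion hit hy, rfl⟩
    obtain ⟨U, -, hUc, hUo, hKU⟩ := exists_cpt_open hS
      (hL.union (hY.image continuous_subtype_val))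
    have hXU : X ⊆ QuotientGroup.mk' H '' (U : Set G) :=
      hXL.trans (Set.image_mono (Set.subset_union_left.trans hKU))
    have hYU : Y ⊆ ((U.subgroupOf H : Subgroup H) : Set H) := fun y hy =>
      hKU (Or.inr ⟨y, hy, rfl⟩)
    obtain ⟨-, hle⟩ := rates hH hCP hφ hHc hμ hν hρ hUc hUo
    have hEU : (U.subgroupOf H).map H.subtype ≤ U := by
      rintro _ ⟨x, hx, rfl⟩; exact hx
    calc HalgT (quotH φ H hH) ν X + HalgT (resH φ H hH) ρ Y
        ≤ HalgT (quotH φ H hH) ν (QuotientGroup.mk' H '' (U : Set G))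
          + HalgT (resH φ H hH) ρ ((U.subgroupOf H : Subgroup H) : Set H) :=
          add_le_add
            (HalgT_mono hν hX1 hXU (fun n => Tn_compact (quotH_cont hH hφ)
              (hUc.image QuotientGroup.continuous_mk) _))
            (HalgT_mono hρ hY1 hYU (fun n => Tn_compact (resH_cont hH hφ) (sub_cpt hHc hUc) _))
      _ ≤ HalgT φ μ (U : Set G) := hle _ (sub_cpt hHc hUc) (sub_opn hUo) hEU
      _ ≤ _ := le_iSup (fun V : {V : Set G // IsCompact V ∧ V ∈ 𝓝 (1 : G)} => HalgT φ μ V.1)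
          ⟨U, hUc, hUo.mem_nhds U.one_mem⟩

end AT

end Pool.Agent.Q151.AT
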