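import Pool.Agent.Q151.AT.Disc

/-!
# Algebraic entropy on strongly compactly covered topologically quasihamiltonian groups
-/

set_option autoImplicit false
set_option linter.style.haveILetI false
set_option linter.unusedSectionVars false

open Filter Topology MeasureTheory
open scoped Pointwise ENNReal

namespace Pool.Agent.Q151.AT

/-- topologically quasihamiltonian groups -/
def Tqh (G : Type*) [Group G] [TopologicalSpace G] : Prop :=
  ∀ X Y : Subgroup G, IsClosed (X : Set G) → IsClosed (Y : Set G) →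
    closure ((X : Set G) * (Y : Set G)) = closure ((Y : Set G) * (X : Set G))

/-- strongly compactly covered groups -/
def StronglyCC (G : Type*) [Group G] [TopologicalSpace G] : Prop :=
  ∀ x : G, ∃ N : Subgroup G, N.Normal ∧ IsCompact (N : Set G) ∧ IsOpen (N : Set G) ∧ x ∈ N

/-- right Haar measures: right invariant Borel measures, finite on compact sets and positive on
nonempty open sets -/
structure IsRightHaar {G : Type*} [Group G] [TopologicalSpace G]
    (μ : @Measure G (borel G)) : Prop where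
  inv : ∀ (g : G) (A : Set G), MeasurableSet[borel G] A → μ ((fun x => x * g) '' A) = μ A
  fin : ∀ K : Set G, IsCompact K → μ K < ⊤
  pos : ∀ U : Set G, IsOpen U → U.Nonempty → 0 < μ U

/-- `H_alg(φ, U)` -/
noncomputable def HalgT {G : Type*} [Group G] [TopologicalSpace G] (φ : G →* G)
    (μ : @Measure G (borel G)) (U : Set G) : EReal :=
  limsup (fun n : ℕ => ((Real.log (μ (Tn φ U n)).toReal / n : ℝ) : EReal)) atTop

/-- the algebraic entropy `h_alg(φ)` with respect to the measure `μ` -/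
noncomputable def halgT {G : Type*} [Group G] [TopologicalSpace G] (φ : G →* G)
    (μ : @Measure G (borel G)) : EReal :=
  ⨆ U : {U : Set G // IsCompact U ∧ U ∈ 𝓝 (1 : G)}, HalgT φ μ U.1

/-- compact subgroups permute -/
def CP (G : Type*) [Group G] [TopologicalSpace G] : Prop :=
  ∀ A B : Subgroup G, IsCompact (A : Set G) → IsCompact (B : Set G) →
    (A : Set G) * (B : Set G) = (B : Set G) * (A : Set G)

section
variable {G : Type*} [Group G] [TopologicalSpace G] [IsTopologicalGroup G]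

lemma cp_of_tqh [T2Space G] (h : Tqh G) : CP G := by
  intro A B hA hB
  have h1 := h A B hA.isClosed hB.isClosed
  rwa [(hA.mul hB).isClosed.closure_eq, (hB.mul hA).isClosed.closure_eq] at h1

lemma cp_sub (h : CP G) (H : Subgroup G) : CP H := by
  intro X Y hX hY
  have h1 := h (X.map H.subtype) (Y.map H.subtype)
    (by rw [Subgroup.coe_map]; exact hX.image continuous_subtype_val)
    (by rw [Subgroup.coe_map]; exact hY.image continuous_subtype_val)
  rw [Subgroup.coe_map, Subgroup.coe_map, ← Set.image_mul, ← Set.image_mul] at h1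
  exact Set.image_injective.mpr (Subgroup.subtype_injective H) h1

lemma CP.perm (h : CP G) {A B : Subgroup G} (hA : IsCompact (A : Set G))
    (hB : IsCompact (B : Set G)) :
    ∀ b ∈ B, ∀ a ∈ A, ∃ a' ∈ A, ∃ b' ∈ B, b * a = a' * b' := by
  intro b hb a ha
  have h1 : b * a ∈ (B : Set G) * (A : Set G) := Set.mul_mem_mul hb ha
  rw [h B A hB hA] at h1
  obtain ⟨a', ha', b', hb', he⟩ := h1
  exact ⟨a', ha', b', hb', he.symm⟩

lemma CP.coe_sup (h : CP G) {A B : Subgroup G} (hA : IsCompact (A : Set G))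
    (hB : IsCompact (B : Set G)) :
    ((A ⊔ B : Subgroup G) : Set G) = (A : Set G) * (B : Set G) := by
  ext x
  rw [SetLike.mem_coe, mem_sup_of_perm (h.perm hA hB)]
  constructor
  · rintro ⟨a, ha, b, hb, rfl⟩; exact ⟨a, ha, b, hb, rfl⟩
  · rintro ⟨a, ha, b, hb, rfl⟩; exact ⟨a, ha, b, hb, rfl⟩

variable {φ : G →* G}

lemma SS_cpt (h : CP G) (hφ : Continuous φ) {U : Subgroup G} (hU : IsCompact (U : Set G)) (n : ℕ) :
    IsCompact (SS φ U n : Set G) ∧ (SS φ U n : Set G) = Tn φ U (n + 1) := by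
  induction n with
  | zero => exact ⟨hU, by simp [SS, Tn]⟩
  | succ n ih =>
    have hm : IsCompact (((SS φ U n).map φ : Subgroup G) : Set G) := by
      rw [Subgroup.coe_map]; exact ih.1.image hφ
    have e : ((SS φ U (n + 1) : Subgroup G) : Set G) = (U : Set G) * φ '' (SS φ U n : Set G) := by
      show ((U ⊔ (SS φ U n).map φ : Subgroup G) : Set G) = _
      rw [h.coe_sup hU hm, Subgroup.coe_map]
    refine ⟨?_, ?_⟩
    · rw [e]; exact hU.mul (ih.1.image hφ)
    · rw [e, Tn_succ', ih.2]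

lemma SS_open {U : Subgroup G} (hU : IsOpen (U : Set G)) (n : ℕ) :
    IsOpen (SS φ U n : Set G) := Subgroup.isOpen_mono (SS_le U n) hU

lemma relIndex_ne {A B : Subgroup G} (hA : IsOpen (A : Set G)) (hB : IsCompact (B : Set G)) :
    A.relIndex B ≠ 0 := by
  haveI : CompactSpace B := isCompact_iff_compactSpace.mp hB
  have h1 : IsOpen ((A.subgroupOf B : Subgroup B) : Set B) := hA.preimage continuous_subtype_val
  haveI := Subgroup.quotient_finite_of_isOpen (A.subgroupOf B) h1
  exact Nat.card_ne_zero.mpr ⟨⟨Quotient.mk'' 1⟩, inferInstance⟩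

lemma SS_chainT (h : CP G) (hφ : Continuous φ) {U : Subgroup G} (hU : IsCompact (U : Set G))
    (hUo : IsOpen (U : Set G)) : Chain φ (SS φ U) where
  le n := SS_step U n
  map_mem n x hx := SS_map_mem U n hx
  gen n x hx := by
    have hm : IsCompact (((SS φ U n).map φ : Subgroup G) : Set G) := by
      rw [Subgroup.coe_map]; exact (SS_cpt h hφ hU n).1.image hφ
    have hx' : x ∈ (SS φ U n).map φ ⊔ U := by rw [sup_comm]; exact hx
    rw [mem_sup_of_perm (h.perm hm hU)] at hx'
    obtain ⟨_, ⟨y, hy, rfl⟩, z, hz, rfl⟩ := hx'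
    exact ⟨y, hy, z, SS_le U n hz, rfl⟩
  fin n := relIndex_ne (SS_open hUo n) (SS_cpt h hφ hU (n + 1)).1

/-- the measure of a compact open subgroup -/
lemma meas_eq {μ : @Measure G (borel G)} (hμ : IsRightHaar μ) {A B : Subgroup G} (hAB : A ≤ B)
    (hA : IsOpen (A : Set G)) (hB : IsCompact (B : Set G)) :
    (μ (B : Set G)).toReal = (A.relIndex B : ℝ) * (μ (A : Set G)).toReal := by
  letI : MeasurableSpace G := borel G
  haveI : BorelSpace G := ⟨rfl⟩
  haveI : Finite (B ⧸ A.subgroupOf B) := Nat.finite_of_card_ne_zero (relIndex_ne hA hB)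
  letI : Fintype (B ⧸ A.subgroupOf B) := Fintype.ofFinite _
  let c : (B ⧸ A.subgroupOf B) → Set G := fun q => (fun x => x * ((q.out : B) : G)⁻¹) '' (A : Set G)
  have hc : (B : Set G) = ⋃ q, c q := by
    ext x
    rw [Set.mem_iUnion]
    constructor
    · intro hx
      have hx' : x ∈ B := hx
      let q : B ⧸ A.subgroupOf B := Quotient.mk'' (⟨x⁻¹, B.inv_mem hx'⟩ : B)
      have h1 : (Quotient.mk'' (q.out : B) : B ⧸ A.subgroupOf B)
          = Quotient.mk'' (⟨x⁻¹, B.inv_mem hx'⟩ : B) := Quotient.out_eq' q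
      rw [Quotient.eq'', QuotientGroup.leftRel_apply, Subgroup.mem_subgroupOf] at h1
      have h2 : ((q.out : B) : G)⁻¹ * x⁻¹ ∈ A := h1
      refine ⟨q, x * ((q.out : B) : G), ?_, by simp⟩
      have h3 := A.inv_mem h2
      simpa using h3
    · rintro ⟨q, y, hy, rfl⟩
      exact B.mul_mem (hAB hy) (B.inv_mem (q.out : B).2)
  have hdisj : Pairwise (Function.onFun Disjoint c) := by
    intro p q hpq
    rw [Function.onFun, Set.disjoint_left]
    rintro x ⟨y, hy, hyx⟩ ⟨z, hz, hzx⟩
    apply hpq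
    have h1 : (Quotient.mk'' (p.out : B) : B ⧸ A.subgroupOf B) = Quotient.mk'' (q.out : B) := by
      rw [Quotient.eq'', QuotientGroup.leftRel_apply, Subgroup.mem_subgroupOf]
      show ((p.out : B) : G)⁻¹ * ((q.out : B) : G) ∈ A
      have e : ((p.out : B) : G)⁻¹ * ((q.out : B) : G) = y⁻¹ * z := by
        simp only at hyx hzx
        have h2 : y * ((p.out : B) : G)⁻¹ = z * ((q.out : B) : G)⁻¹ := hyx.trans hzx.symm
        have h3 : ((p.out : B) : G)⁻¹ = y⁻¹ * (z * ((q.out : B) : G)⁻¹) := by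
          rw [← h2]; group
        rw [h3]; group
      rw [e]
      exact A.mul_mem (A.inv_mem hy) hz
    rwa [Quotient.out_eq', Quotient.out_eq'] at h1
  have hmeas : ∀ q, MeasurableSet (c q) := by
    intro q
    have : IsOpen (c q) := (isOpenMap_mul_right _) _ hA
    exact this.measurableSet
  have h1 : μ (B : Set G) = ∑' q, μ (c q) := by
    conv_lhs => rw [hc]
    exact measure_iUnion hdisj hmeas
  have h2 : ∀ q, μ (c q) = μ (A : Set G) := fun q => hμ.inv _ _ hA.measurableSet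
  rw [h1, tsum_fintype]
  simp only [h2, Finset.sum_const, Finset.card_univ, nsmul_eq_mul]
  rw [ENNReal.toReal_mul, ENNReal.toReal_natCast]
  congr 2
  rw [Subgroup.relIndex, Subgroup.index, Nat.card_eq_fintype_card]

lemma meas_pos {μ : @Measure G (borel G)} (hμ : IsRightHaar μ) {K : Set G} (hK : IsCompact K)
    (hn : K ∈ 𝓝 (1 : G)) : 0 < (μ K).toReal := by
  obtain ⟨V, hV, hVo, h1⟩ := mem_nhds_iff.mp hn
  apply ENNReal.toReal_pos _ (hμ.fin K hK).ne
  exact ((hμ.pos V hVo ⟨1, h1⟩).trans_le (measure_mono hV)).ne'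

lemma meas_mono {μ : @Measure G (borel G)} (hμ : IsRightHaar μ) {K L : Set G} (hKL : K ⊆ L)
    (hL : IsCompact L) : (μ K).toReal ≤ (μ L).toReal :=
  ENNReal.toReal_mono (hμ.fin L hL).ne (measure_mono hKL)

/-- chains of compact open subgroups have a growth rate -/
lemma chain_rate {μ : @Measure G (borel G)} (hμ : IsRightHaar μ) {T : ℕ → Subgroup G}
    (hc : Chain φ T) (hTo : ∀ n, IsOpen (T n : Set G)) (hTc : ∀ n, IsCompact (T n : Set G)) :
    ∃ ℓ : ℝ, Tendsto (fun n : ℕ => Real.log (μ (T n : Set G)).toReal / (n + 1 : ℝ)) atTop (𝓝 ℓ) := by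
  apply hc.tendsto_log (s := fun n => (μ (T n : Set G)).toReal)
  · intro n
    exact meas_pos hμ (hTc n) ((hTo n).mem_nhds (T n).one_mem)
  · intro n
    exact meas_eq hμ (hc.le n) (hTo n) (hTc (n + 1))

lemma HalgT_eq {μ : @Measure G (borel G)} {T : ℕ → Subgroup G} {U : Set G}
    (hT : ∀ n, (T n : Set G) = Tn φ U (n + 1)) {ℓ : ℝ}
    (hℓ : Tendsto (fun n : ℕ => Real.log (μ (T n : Set G)).toReal / (n + 1 : ℝ)) atTop (𝓝 ℓ)) :
    HalgT φ μ U = (ℓ : EReal) := by
  apply Tendsto.limsup_eq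
  rw [← tendsto_add_atTop_iff_nat 1]
  have h1 : (fun n : ℕ => ((Real.log (μ (Tn φ U (n + 1))).toReal / ((n + 1 : ℕ) : ℝ) : ℝ) : EReal))
      = fun n : ℕ => ((Real.log (μ (T n : Set G)).toReal / (n + 1 : ℝ) : ℝ) : EReal) := by
    ext n
    rw [hT]
    push_cast
    rfl
  rw [h1]
  exact (continuous_coe_real_ereal.tendsto _).comp hℓ

lemma subset_Tn {K : Set G} (h1 : (1 : G) ∈ K) (n : ℕ) : K ⊆ Tn φ K (n + 1) := by
  induction n with
  | zero => simp [Tn]
  | succ n ih =>
    intro x hx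
    refine ⟨x, ih hx, 1, ⟨1, h1, Function.iterate_fixed (map_one φ) _⟩, mul_one x⟩

lemma HalgT_mono {μ : @Measure G (borel G)} (hμ : IsRightHaar μ) {K L : Set G}
    (hn : K ∈ 𝓝 (1 : G)) (hKL : K ⊆ L) (hL : ∀ n, IsCompact (Tn φ L (n + 1))) :
    HalgT φ μ K ≤ HalgT φ μ L := by
  apply limsup_le_limsup
  · filter_upwards [eventually_ge_atTop 1] with n hn1
    obtain ⟨m, rfl⟩ : ∃ m, n = m + 1 := ⟨n - 1, by omega⟩
    apply EReal.coe_le_coe_iff.mpr
    apply div_le_div_of_nonneg_right _ (Nat.cast_nonneg _)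
    have hpos : 0 < (μ (Tn φ K (m + 1))).toReal := by
      obtain ⟨V, hV, hVo, h1⟩ := mem_nhds_iff.mp hn
      have hlt : μ (Tn φ K (m + 1)) < ⊤ :=
        (measure_mono (Tn_mono hKL (m + 1))).trans_lt (hμ.fin _ (hL m))
      apply ENNReal.toReal_pos _ hlt.ne
      exact ((hμ.pos V hVo ⟨1, h1⟩).trans_le
        (measure_mono (hV.trans (subset_Tn (mem_of_mem_nhds hn) m)))).ne'
    exact Real.log_le_log hpos (meas_mono hμ (Tn_mono hKL (m + 1)) (hL m))
  · isBoundedDefault
  · isBoundedDefault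

lemma HalgT_nonneg {μ : @Measure G (borel G)} (hμ : IsRightHaar μ) {K : Set G}
    (hK : IsCompact K) (hn : K ∈ 𝓝 (1 : G)) (hc : ∀ n, IsCompact (Tn φ K (n + 1))) :
    0 ≤ HalgT φ μ K := by
  have h0 : Tendsto (fun n : ℕ => ((Real.log (μ K).toReal / n : ℝ) : EReal)) atTop
      (𝓝 ((0 : ℝ) : EReal)) :=
    (continuous_coe_real_ereal.tendsto _).comp
      (tendsto_const_nhds.div_atTop tendsto_natCast_atTop_atTop)
  have h1 : (0 : EReal) = limsup (fun n : ℕ => ((Real.log (μ K).toReal / n : ℝ) : EReal)) atTop := by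
    rw [h0.limsup_eq]; rfl
  rw [h1]
  apply limsup_le_limsup
  · filter_upwards [eventually_ge_atTop 1] with n hn1
    obtain ⟨m, rfl⟩ : ∃ m, n = m + 1 := ⟨n - 1, by omega⟩
    apply EReal.coe_le_coe_iff.mpr
    apply div_le_div_of_nonneg_right _ (Nat.cast_nonneg _)
    exact Real.log_le_log (meas_pos hμ hK hn)
      (meas_mono hμ (subset_Tn (mem_of_mem_nhds hn) m) (hc m))
  · isBoundedDefault
  · isBoundedDefault

/-- compact sets are contained in compact open subgroups -/
lemma exists_cpt_open (hS : StronglyCC G) {K : Set G} (hK : IsCompact K) :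
    ∃ U : Subgroup G, U.Normal ∧ IsCompact (U : Set G) ∧ IsOpen (U : Set G) ∧ K ⊆ U := by
  choose N hN hNc hNo hNx using hS
  obtain ⟨t, ht⟩ := hK.elim_finite_subcover (fun x => (N x : Set G)) hNo
    (fun x _ => Set.mem_iUnion.mpr ⟨x, hNx x⟩)
  have key : ∀ t : Finset G, ∃ U : Subgroup G, U.Normal ∧ IsCompact (U : Set G) ∧
      IsOpen (U : Set G) ∧ ∀ x ∈ t, N x ≤ U := by
    classical
    intro t
    induction t using Finset.induction_on with
    | empty => exact ⟨N 1, hN 1, hNc 1, hNo 1, by simp⟩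
    | @insert a s _ ih =>
      obtain ⟨U, hU, hUc, hUo, hUs⟩ := ih
      refine ⟨N a ⊔ U, ?_, ?_, Subgroup.isOpen_mono le_sup_right hUo, ?_⟩
      · haveI := hN a
        exact Subgroup.sup_normal _ _
      · haveI := hN a
        have e : ((N a ⊔ U : Subgroup G) : Set G) = (N a : Set G) * (U : Set G) :=
          Subgroup.normal_mul _ _
        rw [e]
        exact (hNc a).mul hUc
      · intro x hx
        rw [Finset.mem_insert] at hx
        rcases hx with rfl | hx
        · exact le_sup_left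
        · exact (hUs x hx).trans le_sup_right
  obtain ⟨U, hU, hUc, hUo, hUs⟩ := key t
  refine ⟨U, hU, hUc, hUo, fun x hx => ?_⟩
  obtain ⟨i, hi⟩ := Set.mem_iUnion.mp (ht hx)
  obtain ⟨hit, hxi⟩ := Set.mem_iUnion.mp hi
  exact hUs i hit hxi

end

/-- supremum of sums in the extended reals -/
lemma ereal_sup_add {ι κ : Type*} [Nonempty ι] [Nonempty κ] {f : ι → EReal} {g : κ → EReal}
    {c : EReal} (hf : ∀ i, 0 ≤ f i) (hg : ∀ j, 0 ≤ g j) (h : ∀ i j, f i + g j ≤ c) :
    (⨆ i, f i) + (⨆ j, g j) ≤ c := by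
  rcases eq_or_ne c ⊤ with rfl | hc
  · exact le_top
  obtain ⟨i0⟩ := ‹Nonempty ι›
  obtain ⟨j0⟩ := ‹Nonempty κ›
  have hfc : ∀ i, f i ≤ c := fun i => by
    have := h i j0
    calc f i = f i + 0 := (add_zero _).symm
      _ ≤ f i + g j0 := by gcongr; exact hg j0
      _ ≤ c := this
  have hgc : ∀ j, g j ≤ c := fun j => by
    have := h i0 j
    calc g j = 0 + g j := (zero_add _).symm
      _ ≤ f i0 + g j := by gcongr; exact hf i0
      _ ≤ c := this
  have hftop : ∀ i, f i ≠ ⊤ := fun i hi => hc (top_le_iff.mp (hi ▸ hfc i))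
  have hfbot : ∀ i, f i ≠ ⊥ := fun i hi => absurd (hf i) (by rw [hi]; simp)
  have h1 : ∀ i, (⨆ j, g j) ≤ c - f i := by
    intro i
    refine iSup_le fun j => ?_
    rw [EReal.le_sub_iff_add_le (Or.inl (hfbot i)) (Or.inl (hftop i)), add_comm]
    exact h i j
  have hGtop : (⨆ j, g j) ≠ ⊤ := fun hi => hc (top_le_iff.mp (hi ▸ iSup_le hgc))
  have hGbot : (⨆ j, g j) ≠ ⊥ := fun hi => by
    have := (hg j0).trans (le_iSup g j0)
    rw [hi] at this
    simp at this
  rw [← EReal.le_sub_iff_add_le (Or.inl hGbot) (Or.inl hGtop)]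
  refine iSup_le fun i => ?_
  rw [EReal.le_sub_iff_add_le (Or.inl hGbot) (Or.inl hGtop), add_comm,
    ← EReal.le_sub_iff_add_le (Or.inl (hfbot i)) (Or.inl (hftop i))]
  exact h1 i

end Pool.Agent.Q151.AT
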